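import Pool.Agent.helper53.DC.SpecH

/-!
# dc:H3. Two disjoint walls are close only in a bounded region
-/

set_option autoImplicit false

namespace Pool.Agent.helper16.DC

open Pool.Agent.helper53.DC

theorem H3_step {B W : Type} [Group W] {M : CoxeterMatrix B} (cs : CoxeterSystem M W)
    (r r' : Wall cs) (c : ℕ) (x : W) (h1 : DD cs r x ≤ c) (h2 : DD cs r' x ≤ c) :
    dd cs x (r'.1 * r.1 * x) ≤ 2 * c := by
  have h3 : dd cs x (r'.1 * r.1 * x) = dd cs (r'.1 * x) (r.1 * x) := by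
    have h4 : r'.1 * r'.1 = 1 := r'.2.mul_self
    have h5 : r'.1 * (r'.1 * r.1 * x) = r.1 * x := by
      rw [← mul_assoc, ← mul_assoc, h4, one_mul]
    rw [← dd_left cs r'.1 x, h5]
  rw [h3]
  have h6 := dd_tri cs (r'.1 * x) x (r.1 * x)
  rw [dd_comm cs (r'.1 * x) x] at h6
  unfold DD at h1 h2
  omega

theorem H3_iter {B W : Type} [Group W] {M : CoxeterMatrix B} (cs : CoxeterSystem M W)
    (h x : W) (c : ℕ) (hc : dd cs x (h * x) ≤ c) (n : ℕ) : dd cs x (h ^ n * x) ≤ c * n := by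
  induction n with
  | zero => simp [dd_self]
  | succ n ih =>
    have h1 := dd_tri cs x (h ^ n * x) (h ^ (n + 1) * x)
    have h2 : h ^ (n + 1) * x = h ^ n * (h * x) := by rw [pow_succ, mul_assoc]
    rw [h2, dd_left] at h1
    rw [h2]
    have : c * (n + 1) = c * n + c := by ring
    omega

theorem H3 (hH1 : H1_stmt) (hH3a : H3a_stmt) (hH3b : H3b_stmt) : H3_stmt := by
  intro B W _ M cs δ hyp c
  set c' : ℕ := c + 2 * δ with hc'
  set n : ℕ := 4 * δ + c' + 2 with hn
  set s : ℕ := 2 * c * n with hs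
  refine ⟨2 * (s + 2 * δ) + 2, ?_⟩
  intro r r' hdis x y hx hx' hy hy'
  by_contra hlt
  have hlt' : 2 * (s + 2 * δ) + 2 < dd cs x y := not_le.mp hlt
  obtain ⟨p, hp1, hp2⟩ := exists_geo cs x y (s + 2 * δ + 1) (by omega)
  have hpxy : dd cs x p + dd cs p y = dd cs x y := by omega
  have hxx : dd cs x ((r'.1 * r.1) ^ n * x) ≤ s := by
    have := H3_iter cs (r'.1 * r.1) x (2 * c) (H3_step cs r r' c x hx hx') n
    exact this
  have hyy : dd cs y ((r'.1 * r.1) ^ n * y) ≤ s := by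
    have := H3_iter cs (r'.1 * r.1) y (2 * c) (H3_step cs r r' c y hy hy') n
    exact this
  obtain ⟨q', hq1, hq2⟩ := hH3b cs δ hyp x y _ _ p s hxx hyy hpxy (by omega) (by omega)
  set h : W := (r'.1 * r.1) ^ n with hh
  have hq' : q' = h * (h⁻¹ * q') := by group
  have hqgeo : dd cs x (h⁻¹ * q') + dd cs (h⁻¹ * q') y = dd cs x y := by
    have h1 : dd cs (h * x) q' = dd cs x (h⁻¹ * q') := by
      conv_lhs => rw [hq']
      exact dd_left cs h x (h⁻¹ * q')
    have h2 : dd cs q' (h * y) = dd cs (h⁻¹ * q') y := by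
      conv_lhs => rw [hq']
      exact dd_left cs h (h⁻¹ * q') y
    rw [h1, h2, dd_left] at hq1
    exact hq1
  have hp := hH1 cs δ hyp r x y p
  have hq := hH1 cs δ hyp r x y (h⁻¹ * q')
  have hmax : max (DD cs r x) (DD cs r y) ≤ c := max_le hx hy
  have h3 := hH3a cs r r' hdis n c' p (h⁻¹ * q') (by omega) (by omega)
  rw [← hh, ← hq'] at h3
  omega

end Pool.Agent.helper16.DC
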