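import Pool.Agent.helper53.DC.SpecK

/-!
# dc:K12. Separability of the finite index subgroups of `KK` in `H`
-/

set_option autoImplicit false

namespace Pool.Agent.helper16.DC

open Pool.Agent.helper53.DC

section inv
variable {B W : Type} [Group W] {M : CoxeterMatrix B} (cs : CoxeterSystem M W)

theorem K12_hull (hA4b : A4b_stmt) (g : W) (E : Set W) (hE : ∀ z ∈ E, g * z ∈ E) (x : W)
    (hx : x ∈ (cw cs).hull E) : g * x ∈ (cw cs).hull E := by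
  intro v b hv
  obtain ⟨e, he⟩ := hA4b cs g (g⁻¹ • v)
  rw [smul_inv_smul] at he
  rw [he x b]
  exact hx _ _ fun z hz => (he z b).mp (hv (hE z hz))

theorem K12_thick (hA4b : A4b_stmt) (g : W) (C : Set W) (hC : ∀ z ∈ C, g * z ∈ C) (k : ℕ) (y : W)
    (hy : y ∈ (cw cs).Thick C k) : g * y ∈ (cw cs).Thick C k := by
  rintro ⟨v, b, h1, h2, h3⟩
  apply hy
  have h4 : ∀ i, ∃ e : Bool, ∀ (x : W) (b : Bool),
      g * x ∈ (cw cs).hs (v i) b ↔ x ∈ (cw cs).hs (g⁻¹ • v i) (xor b e) := by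
    intro i
    obtain ⟨e, he⟩ := hA4b cs g (g⁻¹ • v i)
    rw [smul_inv_smul] at he
    exact ⟨e, he⟩
  choose e he using h4
  refine ⟨fun i => g⁻¹ • v i, fun i => xor (b i) (e i), fun i hi => ?_, fun i hi => ?_, fun i hi => ?_⟩
  · exact (he i y (b i)).mp (h1 i hi)
  · rw [Set.disjoint_left]
    intro z hz hzC
    exact Set.disjoint_left.mp (h2 i hi) ((he i z (b i)).mpr hz) (hC z hzC)
  · obtain ⟨h5, h6⟩ := Set.ssubset_iff_subset_ne.mp (h3 i hi)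
    refine Set.ssubset_iff_subset_ne.mpr ⟨fun z hz => ?_, fun h7 => h6 ?_⟩
    · exact (he i z (b i)).mp (h5 ((he (i + 1) z (b (i + 1))).mpr hz))
    · ext z
      have h8 : z = g * (g⁻¹ * z) := by group
      have h9 : g⁻¹ * z ∈ (cw cs).hs (g⁻¹ • v (i + 1)) (xor (b (i + 1)) (e (i + 1))) ↔
          g⁻¹ * z ∈ (cw cs).hs (g⁻¹ • v i) (xor (b i) (e i)) := Set.ext_iff.mp h7 _
      rw [h8, he, he]
      exact h9

theorem K12_XK (H : Subgroup W) (w w' : Wall cs) (κ : W) (hκ : κ ∈ KK cs H w w') (x : W)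
    (hx : x ∈ XK cs H w w') : κ * x ∈ XK cs H w w' := by
  obtain ⟨u, hu, i, hi⟩ := hx
  refine ⟨κ • u, ?_, i, ?_⟩
  · have h1 := TG_reach_smul cs hκ.1 (w := w) (w' := w') hu
    exact hκ.2.trans h1
  · rw [smul_wall_val]
    calc κ * u.1 * κ⁻¹ * (κ * x) = κ * (u.1 * x) := by group
      _ = κ * (x * cs.simple i) := by rw [hi]
      _ = κ * x * cs.simple i := by group

end inv

/-- finitely many right cosets -/
theorem K12_cosets {W : Type} [Group W] (K0 K : Subgroup W) (h : K0.relIndex K ≠ 0) :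
    ∃ T : Set W, T.Finite ∧ ∀ κ ∈ K, ∃ k ∈ K0, ∃ t ∈ T, κ = k * t := by
  have hfi : (K0.subgroupOf K).FiniteIndex := ⟨h⟩
  have hfin : Finite (K ⧸ K0.subgroupOf K) := inferInstance
  refine ⟨Set.range (fun q : K ⧸ K0.subgroupOf K => ((Quotient.out q : K) : W)⁻¹),
    Set.finite_range _, fun κ hκ => ?_⟩
  set q : K ⧸ K0.subgroupOf K := QuotientGroup.mk (⟨κ, hκ⟩ : K)⁻¹ with hq
  have h1 : ((Quotient.out q : K))⁻¹ * (⟨κ, hκ⟩ : K)⁻¹ ∈ K0.subgroupOf K := by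
    rw [← QuotientGroup.eq]
    rw [hq]
    exact QuotientGroup.out_eq' _
  rw [Subgroup.mem_subgroupOf] at h1
  have h2 : ((((Quotient.out q : K))⁻¹ * (⟨κ, hκ⟩ : K)⁻¹ : K) : W) =
      ((Quotient.out q : K) : W)⁻¹ * κ⁻¹ := rfl
  rw [h2] at h1
  refine ⟨_, K0.inv_mem h1, _, ⟨q, rfl⟩, ?_⟩
  group

theorem K12 (hK10 : K10_stmt) (hK11 : K11_stmt) (hM5 : M5_stmt) (hM5b : M5b_stmt) (hM8 : M8_stmt)
    (hL1 : L1_stmt) (hL2 : L2_stmt) (hL3 : L3_stmt) (hL4 : L4_stmt) (hA19 : A19_stmt)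
    (hA20 : A20_stmt) (hW5 : W5_stmt) (hW6 : W6_stmt) (hA4b : A4b_stmt) (hA6 : A6_stmt)
    (hW1 : W1_stmt) : K12_stmt := by
  intro B W _ _ M cs δ hyp H m g0 w w' hdeep hcr hG0 hm K0 hK0 hidx F hF
  have hfinI : H.FiniteIndex := hdeep.fin
  have hLab : Finite (Lab cs H) := hA20 cs H hdeep.fin
  obtain ⟨c, hc⟩ := hL1 cs H m hdeep
  obtain ⟨wm, hwm⟩ := hL4 cs H m c hdeep hc
  obtain ⟨ρ, hρ⟩ := hK10 cs δ hyp H m g0 w w' c wm hdeep hcr hG0 hm hc hwm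
  have hne : w ≠ w' := by
    rintro rfl
    exact (hW1 (cw cs) (hA6 cs)).2.2.1 w hcr
  obtain ⟨Φ, hΦ, hΦ'⟩ := hK11 cs H w w' hdeep.fin hne
  have hmul : ∀ h ∈ H, ∀ x, c (h * x) = c h * c x := hL2 cs H c hc
  have hiso := hL3 cs H m c hdeep hc
  -- a base point
  obtain ⟨x₀, i₀, hx₀⟩ := w.2
  have hx₀K : x₀ ∈ XK cs H w w' := by
    refine ⟨w, SimpleGraph.Reachable.refl _, i₀, ?_⟩
    rw [hx₀]; group
  set E : Set (RA (labG cs H)) := c '' XK cs H w w' with hE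
  set C : Set (RA (labG cs H)) := (cw (ra (labG cs H))).hull E with hC
  obtain ⟨hCconv, hEC, -, -, -⟩ := hW6 (cw (ra (labG cs H))) E
  have hx₀C : c x₀ ∈ C := hEC ⟨x₀, hx₀K, rfl⟩
  -- the radius of the thickening
  obtain ⟨k₁, hk₁⟩ : ∃ k₁ : ℕ, ∀ f ∈ F, dd (ra (labG cs H)) (c f)⁻¹ (c x₀) ≤ k₁ := by
    obtain ⟨b, hb⟩ := (hF.image fun f => dd (ra (labG cs H)) (c f)⁻¹ (c x₀)).bddAbove
    exact ⟨b, fun f hf => hb ⟨f, hf, rfl⟩⟩
  set k : ℕ := max k₁ (dd (ra (labG cs H)) 1 (c x₀)) with hk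
  set Y : Set (RA (labG cs H)) := (cw (ra (labG cs H))).Thick C k with hY
  have hYconv : (cw (ra (labG cs H))).Conv Y := (hW5 (cw (ra (labG cs H))) (hA6 (ra (labG cs H))) C k).1
  have h1Y : (1 : RA (labG cs H)) ∈ Y := hM5b (ra (labG cs H)) C k 1 (c x₀) hx₀C (le_max_right _ _)
  have hFY : ∀ f ∈ F, (c f)⁻¹ ∈ Y := fun f hf =>
    hM5b (ra (labG cs H)) C k _ (c x₀) hx₀C ((hk₁ f hf).trans (le_max_left _ _))
  -- the homomorphism
  set c' : H →* RA (labG cs H) :=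
    { toFun := fun h => c h
      map_one' := hc.one
      map_mul' := fun a b => hmul a a.2 b } with hc'
  have hc'inj : Function.Injective c' := by
    intro a b hab
    have h1 := hiso (a : W) (b : W)
    have h2 : c (a : W) = c (b : W) := hab
    rw [h2, dd_self] at h1
    exact Subtype.ext ((dd_eq_zero cs).mp h1.symm)
  -- invariance
  have hE1 : ∀ κ ∈ KK cs H w w', ∀ z ∈ E, c κ * z ∈ E := by
    rintro κ hκ _ ⟨x, hx, rfl⟩
    exact ⟨κ * x, K12_XK cs H w w' κ hκ x hx, hmul κ hκ.1 x⟩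
  have hY1 : ∀ κ ∈ KK cs H w w', ∀ y ∈ Y, c κ * y ∈ Y := fun κ hκ y hy =>
    K12_thick (ra (labG cs H)) hA4b (c κ) C (fun z hz => K12_hull (ra (labG cs H)) hA4b (c κ) E (hE1 κ hκ) z hz) k y hy
  have hcinv : ∀ κ ∈ H, c κ⁻¹ = (c κ)⁻¹ := by
    intro κ hκ
    have h1 := hmul κ⁻¹ (H.inv_mem hκ) κ
    rw [inv_mul_cancel, hc.one] at h1
    exact eq_inv_of_mul_eq_one_left h1.symm
  have hY2 : ∀ κ ∈ KK cs H w w', ∀ y, c κ * y ∈ Y ↔ y ∈ Y := by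
    intro κ hκ y
    refine ⟨fun h => ?_, hY1 κ hκ y⟩
    have h1 := hY1 κ⁻¹ ((KK cs H w w').inv_mem hκ) _ h
    rw [hcinv κ hκ.1, inv_mul_cancel_left] at h1
    exact h1
  -- cofiniteness
  obtain ⟨T, hT, hT'⟩ := K12_cosets K0 (KK cs H w w') hidx
  set R : ℕ := ρ + k * Nat.card (Lab cs H) with hR
  set Φ₁ : Set (RA (labG cs H)) := ⋃ f ∈ Φ, {y | dd (ra (labG cs H)) (c f) y ≤ R} with hΦ₁
  have hΦ₁fin : Φ₁.Finite := hΦ.biUnion fun f _ => hA19 (ra (labG cs H)) (c f) R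
  set Φ₂ : Set (RA (labG cs H)) := Set.image2 (fun t y => c t * y) T Φ₁ with hΦ₂
  have hΦ₂fin : Φ₂.Finite := hT.image2 _ hΦ₁fin
  have hcof : ∀ y ∈ Y, ∃ κ ∈ K0, ∃ f ∈ Φ₂, y = c κ * f := by
    intro y hy
    obtain ⟨z, hz, hyz⟩ := hM5 (labG cs H) C k hCconv ⟨_, hx₀C⟩ y hy
    obtain ⟨x, hx, hxz⟩ := hρ z hz
    obtain ⟨κ, hκ, f, hf, rfl⟩ := hΦ' x hx
    have h1 : dd (ra (labG cs H)) (c f) ((c κ)⁻¹ * y) ≤ R := by
      have h2 := dd_tri (ra (labG cs H)) (c (κ * f)) z y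
      rw [dd_comm (ra (labG cs H)) z y] at h2
      have h3 : dd (ra (labG cs H)) (c f) ((c κ)⁻¹ * y) = dd (ra (labG cs H)) (c (κ * f)) y := by
        rw [hmul κ hκ.1, ← dd_left (ra (labG cs H)) (c κ) (c f), mul_inv_cancel_left]
      rw [h3, hR]
      omega
    obtain ⟨k0, hk0, t, ht, hκt⟩ := hT' κ hκ
    refine ⟨k0, hk0, c t * ((c κ)⁻¹ * y), ⟨t, ht, _, ?_, rfl⟩, ?_⟩
    · rw [hΦ₁, Set.mem_iUnion₂]
      exact ⟨f, hf, h1⟩
    · rw [← mul_assoc, ← hmul k0 (hK0 hk0).1 t, ← hκt, mul_inv_cancel_left]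
  -- the criterion
  obtain ⟨H0', hH0, hKH0, hFH0⟩ := hM8 (labG cs H) c' (K0.subgroupOf H) Y Φ₂ {f : H | (f : W) ∈ F} hc'inj hYconv h1Y
    (fun κ hκ y => hY2 κ (hK0 (Subgroup.mem_subgroupOf.mp hκ)) y) hΦ₂fin
    (fun y hy => by
      obtain ⟨κ, hκ, f, hf, h1⟩ := hcof y hy
      exact ⟨⟨κ, (hK0 hκ).1⟩, Subgroup.mem_subgroupOf.mpr hκ, f, hf, h1⟩)
    (fun f hf => hFY f hf)
  refine ⟨H0'.map H.subtype, ⟨?_⟩, fun κ hκ => ?_, Subgroup.map_subtype_le H0', fun f hf hfH => ?_⟩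
  · rw [Subgroup.index_map_subtype]
    exact mul_ne_zero hH0.index_ne_zero hfinI.index_ne_zero
  · exact ⟨⟨κ, (hK0 hκ).1⟩, hKH0 (Subgroup.mem_subgroupOf.mpr hκ), rfl⟩
  · obtain ⟨h, hh, rfl⟩ := hfH
    exact Subgroup.mem_subgroupOf.mp (hFH0 h hf hh)

end Pool.Agent.helper16.DC
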