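import Pool.Agent.helper53.DC.SpecM

/-!
# dc:M5. Thickenings and distances
-/

set_option autoImplicit false

namespace Pool.Agent.helper16.DC

open Pool.Agent.helper53.DC

theorem M5 (hM4 : M4_stmt) (hW7 : W7_stmt) (hM2b : M2b_stmt) (hA5 : A5_stmt) (hA6 : A6_stmt) :
    M5_stmt := by
  intro Γ _ G C k hC hne y hy
  obtain ⟨g, hg, hgate⟩ := hM4 G C hC hne y
  refine ⟨g, hg, ?_⟩
  by_contra hlt
  have hlt' : k * Nat.card Γ < dd (ra G) y g := not_le.mp hlt
  obtain ⟨hfin, hcard⟩ := hA5 (ra G) y g
  have hF : hfin.toFinset.card = dd (ra G) y g := by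
    rw [← hcard, Set.ncard_eq_toFinset_card _ hfin]
  exact hy (hW7 (cw (ra G)) (hA6 (ra G)) C y (Nat.card Γ) k hfin.toFinset hne
    (fun v hv z hz => hgate v (by simpa using hv) z hz)
    (fun E _ hE => hM2b G E hE) (by rw [hF]; exact hlt'))

theorem M5_side {X Wl : Type} (S : WS X Wl) (w : Wl) (b : Bool) (x y : X) (hx : x ∈ S.hs w b)
    (hy : y ∉ S.hs w b) : S.Sep w x y := by
  intro h
  apply hy
  show y ∈ S.H w ↔ b = true
  rw [← h]
  exact hx

theorem M5b (hA5 : A5_stmt) : M5b_stmt := by
  intro B W _ M cs C k y z hz hd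
  rintro ⟨v, b, h1, h2, h3⟩
  obtain ⟨hfin, hcard⟩ := hA5 cs y z
  have hsep : ∀ i ≤ k, (cw cs).Sep (v i) y z := by
    intro i hi
    refine M5_side _ _ (b i) _ _ (h1 i hi) ?_
    intro h4
    exact Set.disjoint_left.mp (h2 i hi) h4 hz
  have hnest : ∀ i j, i < j → j ≤ k → (cw cs).hs (v j) (b j) ⊂ (cw cs).hs (v i) (b i) := by
    intro i j hij
    induction j with
    | zero => omega
    | succ j ih =>
      intro hj
      rcases Nat.lt_succ_iff_lt_or_eq.mp hij with h | h
      · exact lt_trans (h3 j (by omega)) (ih h (by omega))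
      · subst h
        exact h3 i (by omega)
  have hinj : ∀ i j, i < j → j ≤ k → v i ≠ v j := by
    intro i j hij hj he
    have h4 := hnest i j hij hj
    by_cases hb : b i = b j
    · rw [he, hb] at h4
      exact lt_irrefl _ h4
    · have h5 : y ∈ (cw cs).H (v j) ↔ b i = true := by
        have := h1 i (by omega)
        rw [he] at this
        exact this
      have h6 : y ∈ (cw cs).H (v j) ↔ b j = true := h1 j hj
      apply hb
      rw [h5] at h6
      cases hbi : b i <;> cases hbj : b j <;> simp_all
  have h7 : Set.InjOn v (Finset.range (k + 1) : Set ℕ) := by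
    intro i hi j hj he
    rw [Finset.coe_range, Set.mem_Iio] at hi hj
    rcases lt_trichotomy i j with h | h | h
    · exact absurd he (hinj i j h (by omega))
    · exact h
    · exact absurd he.symm (hinj j i h (by omega))
  classical
  have h8 : (Finset.image v (Finset.range (k + 1))).card = k + 1 := by
    rw [Finset.card_image_of_injOn h7, Finset.card_range]
  have h9 : Finset.image v (Finset.range (k + 1)) ⊆ hfin.toFinset := by
    intro w hw
    rw [Finset.mem_image] at hw
    obtain ⟨i, hi, rfl⟩ := hw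
    rw [Set.Finite.mem_toFinset]
    exact hsep i (by rw [Finset.mem_range] at hi; omega)
  have h10 := Finset.card_le_card h9
  have hF : hfin.toFinset.card = dd cs y z := by
    rw [← hcard, Set.ncard_eq_toFinset_card _ hfin]
  omega

end Pool.Agent.helper16.DC
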