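import Pool.Agent.helper53.DC.SpecV

/-!
# dc:V8. Sum of the tree kernels over all orbits
-/

set_option autoImplicit false

namespace Pool.Agent.helper16.DC

open Pool.Agent.helper53.DC

section basic
variable {B W : Type} [Group W] {M : CoxeterMatrix B} (cs : CoxeterSystem M W)

theorem V8_vis_self (r : Wall cs) : Vis cs 1 r r := by
  obtain ⟨x, i, hx⟩ := r.2
  have h1 : cs.length (r.1 * x) ≠ cs.length x := r.2.length_mul_right_ne x
  have h2 : (cw cs).Sep r x (x * cs.simple i) := by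
    have h3 : x * cs.simple i = r.1 * x := by rw [hx]; group
    rw [h3]
    intro h4
    rw [mem_cw, mem_cw, ← mul_assoc, r.2.mul_self, one_mul] at h4
    omega
  exact ⟨x, x * cs.simple i, (dd_simple cs x i).le, h2, h2⟩

theorem V8_vis_mono {R R' : ℕ} {r r' : Wall cs} (h : Vis cs R r r') (hR : R ≤ R') :
    Vis cs R' r r' := by
  obtain ⟨x, y, h1, h2, h3⟩ := h
  exact ⟨x, y, h1.trans hR, h2, h3⟩

theorem V8_adj_cross (hA4c : A4c_stmt) (hA6 : A6_stmt) (hW1 : W1_stmt) {H : Subgroup W}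
    {w w' : Wall cs} (hcr : (cw cs).Cross w w') {u u' : Wall cs}
    (ha : (TG cs H w w').Adj u u') : (cw cs).Cross u u' := by
  obtain ⟨-, h, -, ⟨rfl, rfl⟩ | ⟨rfl, rfl⟩⟩ := ha
  · exact ((hA4c cs h).1 w w').mpr hcr
  · exact (hW1 (cw cs) (hA6 cs)).2.1 _ _ (((hA4c cs h).1 w w').mpr hcr)

theorem V8_adj_left {H : Subgroup W} {w w' : Wall cs} {u u' : Wall cs}
    (ha : (TG cs H w w').Adj u u') : ∃ h ∈ H, h • w = u ∨ h • w' = u := by
  obtain ⟨-, h, hh, ⟨h1, h2⟩ | ⟨h1, h2⟩⟩ := ha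
  · exact ⟨h, hh, Or.inl h1⟩
  · exact ⟨h, hh, Or.inr h1⟩

open Classical in
theorem V8_kT_cross (hK6 : K6_stmt) (hA6 : A6_stmt) (hW1 : W1_stmt) {H : Subgroup W}
    {m g0 : ℕ} {w w' : Wall cs} (hdeep : Deep cs H m) (hcr : (cw cs).Cross w w') (hG0 : G0 cs g0)
    (hm : 2 * g0 < m) (lam : ℝ) {u u' : Wall cs} (hu : (cw cs).Cross u u') :
    kT cs H w w' lam u u' = if (TG cs H w w').Adj u u' then lam else 0 := by
  have hne : u ≠ u' := by
    rintro rfl
    exact (hW1 (cw cs) (hA6 cs)).2.2.1 u hu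
  unfold kT
  by_cases ha : (TG cs H w w').Adj u u'
  · rw [if_pos ha, if_pos ⟨V8_adj_left cs ha, ha.reachable⟩, SimpleGraph.dist_eq_one_iff_adj.mpr ha,
      pow_one]
  · rw [if_neg ha]
    apply if_neg
    rintro ⟨-, hr⟩
    obtain ⟨p, hp, hpl⟩ := hr.exists_path_of_dist
    have h0 : (TG cs H w w').dist u u' ≠ 0 := (hr.pos_dist_of_ne hne).ne'
    have h1 : (TG cs H w w').dist u u' ≠ 1 := fun h => ha (SimpleGraph.dist_eq_one_iff_adj.mp h)
    have hd := (hK6 cs H m g0 w w' hdeep hcr hG0 hm).2 u u' p hp (by omega)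
    exact hd.2 hu

theorem V8_kT_dis (hA4c : A4c_stmt) (hA6 : A6_stmt) (hW1 : W1_stmt) {H : Subgroup W}
    {w w' : Wall cs} (hcr : (cw cs).Cross w w') {lam : ℝ} (h0 : 0 < lam) (h1 : lam < 1)
    {u u' : Wall cs} (hu : (cw cs).Dis u u') : kT cs H w w' lam u u' ≤ lam ^ 2 := by
  unfold kT
  split_ifs with h
  · apply pow_le_pow_of_le_one h0.le h1.le
    have h2 : (TG cs H w w').dist u u' ≠ 0 := (h.2.pos_dist_of_ne hu.1).ne'
    have h3 : (TG cs H w w').dist u u' ≠ 1 := fun h4 =>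
      hu.2 (V8_adj_cross cs hA4c hA6 hW1 hcr (SimpleGraph.dist_eq_one_iff_adj.mp h4))
    omega
  · positivity

theorem V8_kT_self {H : Subgroup W} {w w' : Wall cs} {lam : ℝ} (u : Wall cs) :
    kT cs H w w' lam u u ≤ 1 := by
  unfold kT
  split_ifs with h
  · rw [SimpleGraph.dist_self, pow_zero]
  · exact zero_le_one

end basic

theorem V8 (hV6 : V6_stmt) (hV7 : V7_stmt) (hK6 : K6_stmt) (hA24 : A24_stmt) (hA4c : A4c_stmt)
    (hA6 : A6_stmt) (hW1 : W1_stmt) : V8_stmt := by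
  classical
  intro B W _ _ M cs H m g0 hdeep hG0 hm hSEP
  obtain ⟨I, fI, e, he, huniq⟩ := hV7 cs H hdeep.fin
  have hfi : H.FiniteIndex := hdeep.fin
  let fQ : Fintype (W ⧸ H) := Fintype.ofFinite _
  obtain ⟨R0, hR0⟩ := hA24 cs
  set N : ℝ := (Fintype.card I : ℝ) with hN
  have hN0 : 0 ≤ N := Nat.cast_nonneg _
  set n : ℝ := (Fintype.card (W ⧸ H) : ℝ) with hn
  have hn0 : 0 < n := by
    rw [hn]; exact_mod_cast Fintype.card_pos
  set lam : ℝ := 1 / (N + 2) with hlam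
  have hlam0 : 0 < lam := by positivity
  have hlam1 : lam < 1 := by
    rw [hlam, div_lt_one (by positivity)]
    linarith
  have hNlam : N * lam ≤ 1 := by
    rw [hlam, mul_one_div, div_le_one (by positivity)]
    linarith
  refine ⟨N / (2 * lam), fun R => ?_⟩
  set R' : ℕ := max (max R R0) 1 with hR'
  have hV := fun i => hV6 cs H m g0 (e i).1 (e i).2 hdeep (he i) hG0 hm (hSEP _ _ (he i)) lam hlam0
    hlam1 R'
  choose Z fZ aZ β hβ1 hβ2 using hV
  set s : ℝ := (Real.sqrt (2 * lam * n))⁻¹ with hs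
  have hs2 : s * s = 1 / (2 * lam * n) := by
    rw [hs, ← mul_inv, Real.mul_self_sqrt (by positivity), one_div]
  set b : Wall cs → (Σ i, Z i) → ℝ := fun r z => s * β z.1 r z.2 with hb
  -- the main formula
  have hmain : ∀ r r', Vis cs R' r r' → ∑ z, b r z * b r' z =
      s * s * ∑ q : W ⧸ H, ∑ i, kT cs H (e i).1 (e i).2 lam ((Quotient.out q)⁻¹ • r)
        ((Quotient.out q)⁻¹ • r') := by
    intro r r' hv
    rw [Fintype.sum_sigma, Finset.sum_comm (f := fun (q : W ⧸ H) i => kT cs H (e i).1 (e i).2 lam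
      ((Quotient.out q)⁻¹ • r) ((Quotient.out q)⁻¹ • r')), Finset.mul_sum]
    refine Finset.sum_congr rfl fun i _ => ?_
    rw [← hβ2 i r r' hv, Finset.mul_sum]
    refine Finset.sum_congr rfl fun z _ => ?_
    show s * β i r z * (s * β i r' z) = _
    ring
  have hcard : ∑ _q : W ⧸ H, (1 : ℝ) = n := by
    rw [Finset.sum_const, Finset.card_univ, nsmul_eq_mul, mul_one]
  have hcardI : ∑ _i : I, (1 : ℝ) = N := by
    rw [Finset.sum_const, Finset.card_univ, nsmul_eq_mul, mul_one]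
  refine ⟨Σ i, Z i, inferInstance, inferInstance, b, ?_, ?_, ?_, ?_⟩
  · rintro g r ⟨i, z⟩
    show s * β i (g • r) (g • z) = s * β i r z
    rw [hβ1]
  · intro r
    rw [hmain r r (V8_vis_mono cs (V8_vis_self cs r) (le_max_right _ _)), hs2]
    have h1 : ∑ q : W ⧸ H, ∑ i, kT cs H (e i).1 (e i).2 lam ((Quotient.out q)⁻¹ • r)
        ((Quotient.out q)⁻¹ • r) ≤ ∑ q : W ⧸ H, N * 1 := by
      refine Finset.sum_le_sum fun q _ => ?_
      rw [← hcardI, Finset.sum_mul]
      refine Finset.sum_le_sum fun i _ => ?_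
      rw [one_mul]
      exact V8_kT_self cs _
    rw [← Finset.mul_sum, hcard] at h1
    calc 1 / (2 * lam * n) * _ ≤ 1 / (2 * lam * n) * (N * n) :=
          mul_le_mul_of_nonneg_left h1 (by positivity)
      _ = N / (2 * lam) := by field_simp
  · intro r r' hcr
    rw [hmain r r' (V8_vis_mono cs (hR0 r r' hcr) ((le_max_right _ _).trans (le_max_left _ _))), hs2]
    have h1 : ∀ q : W ⧸ H, ∑ i, kT cs H (e i).1 (e i).2 lam ((Quotient.out q)⁻¹ • r)
        ((Quotient.out q)⁻¹ • r') = 2 * lam * 1 := by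
      intro q
      set u : Wall cs := (Quotient.out q)⁻¹ • r with hu
      set u' : Wall cs := (Quotient.out q)⁻¹ • r' with hu'
      have hcu : (cw cs).Cross u u' := ((hA4c cs _).1 r r').mpr hcr
      have hcu' : (cw cs).Cross u' u := (hW1 (cw cs) (hA6 cs)).2.1 _ _ hcu
      have hne : u ≠ u' := by
        rintro h
        rw [← h] at hcu
        exact (hW1 (cw cs) (hA6 cs)).2.2.1 u hcu
      obtain ⟨i1, ⟨h1, hh1, h11, h12⟩, hi1⟩ := huniq u u' hcu
      obtain ⟨i2, ⟨h2, hh2, h21, h22⟩, hi2⟩ := huniq u' u hcu'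
      have hi12 : i1 ≠ i2 := by
        intro h
        apply hdeep.a1 u u' hcu
        have e1 : lab cs H (e i1).1 = lab cs H u := (lab_eq cs).mpr ⟨h1, hh1, h11⟩
        have e2 : lab cs H (e i1).1 = lab cs H u' := by
          rw [h]; exact (lab_eq cs).mpr ⟨h2, hh2, h21⟩
        rw [← e1, e2]
      have hadj : ∀ i, (TG cs H (e i).1 (e i).2).Adj u u' ↔ i = i1 ∨ i = i2 := by
        intro i
        constructor
        · rintro ⟨-, h, hh, ⟨h3, h4⟩ | ⟨h3, h4⟩⟩
          · exact Or.inl (hi1 i ⟨h, hh, h3, h4⟩)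
          · exact Or.inr (hi2 i ⟨h, hh, h4, h3⟩)
        · rintro (rfl | rfl)
          · exact ⟨hne, h1, hh1, Or.inl ⟨h11, h12⟩⟩
          · exact ⟨hne, h2, hh2, Or.inr ⟨h22, h21⟩⟩
      have h3 : ∀ i ∈ Finset.univ, kT cs H (e i).1 (e i).2 lam u u' =
          (if i = i1 then lam else 0) + (if i = i2 then lam else 0) := by
        intro i _
        rw [V8_kT_cross cs hK6 hA6 hW1 hdeep (he i) hG0 hm lam hcu]
        by_cases h4 : i = i1
        · rw [if_pos ((hadj i).mpr (Or.inl h4)), if_pos h4, if_neg (by rw [h4]; exact hi12), add_zero]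
        · by_cases h5 : i = i2
          · rw [if_pos ((hadj i).mpr (Or.inr h5)), if_neg h4, if_pos h5, zero_add]
          · rw [if_neg (fun h6 => ((hadj i).mp h6).elim h4 h5), if_neg h4, if_neg h5, add_zero]
      rw [Finset.sum_congr rfl h3, Finset.sum_add_distrib, Finset.sum_ite_eq' Finset.univ i1,
        Finset.sum_ite_eq' Finset.univ i2, if_pos (Finset.mem_univ _), if_pos (Finset.mem_univ _)]
      ring
    rw [Finset.sum_congr rfl fun q _ => h1 q, ← Finset.mul_sum, hcard]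
    field_simp
  · intro r r' hdis hvis
    rw [hmain r r' (V8_vis_mono cs hvis ((le_max_left _ _).trans (le_max_left _ _))), hs2]
    have h1 : ∑ q : W ⧸ H, ∑ i, kT cs H (e i).1 (e i).2 lam ((Quotient.out q)⁻¹ • r)
        ((Quotient.out q)⁻¹ • r') ≤ ∑ q : W ⧸ H, (N * lam ^ 2) * 1 := by
      refine Finset.sum_le_sum fun q _ => ?_
      rw [mul_one, ← hcardI, Finset.sum_mul]
      refine Finset.sum_le_sum fun i _ => ?_
      rw [one_mul]
      exact V8_kT_dis cs hA4c hA6 hW1 (he i) hlam0 hlam1 (((hA4c cs _).2.1 r r').mpr hdis)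
    rw [← Finset.mul_sum, hcard] at h1
    calc 1 / (2 * lam * n) * _ ≤ 1 / (2 * lam * n) * (N * lam ^ 2 * n) :=
          mul_le_mul_of_nonneg_left h1 (by positivity)
      _ = N * lam / 2 := by field_simp
      _ ≤ 1 / 2 := by linarith

end Pool.Agent.helper16.DC
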